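import Pool.Agent.Helper46.Fit.Main

/-!
MP_035081_al, Q1: every nonempty soluble saturated Fitting class is local.
-/

namespace Pool.Agent.Results.MP_035081_al.SaturatedLocal

open Pool.Agent.Helper46.Fit

theorem result (F : FittingClass) (hne : F.NonEmpty) (hsol : F.Soluble) (hsat : F.Saturated) :
    F.Local :=
  local_of_saturated F hne hsol hsat

end Pool.Agent.Results.MP_035081_al.SaturatedLocal
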